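import Mathlib
import Pool.Agent.H15.Psc6

set_option autoImplicit false

open Filter Topology

namespace Pool.Agent.Results.MP_f23337_gt.AllFour

/-- Every continuous real function is bounded. -/
def IsPseudocompact (X : Type) [TopologicalSpace X] : Prop :=
  ∀ f : X → ℝ, Continuous f → ∃ M : ℝ, ∀ x, |f x| ≤ M

/-- Free ultrafilters on the natural numbers. -/
def IsFree (p : Ultrafilter ℕ) : Prop := ∀ n : ℕ, ({n} : Set ℕ) ∉ p

/-- `a` is a `p`-limit of the sequence `x`. -/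
def IsPLimit {X : Type} [TopologicalSpace X] (p : Ultrafilter ℕ) (x : ℕ → X) (a : X) : Prop :=
  ∀ V ∈ 𝓝 a, {n | x n ∈ V} ∈ p

/-- Property (i). -/
def SelectivelyPseudocompact (X : Type) [TopologicalSpace X] : Prop :=
  ∀ U : ℕ → Set X, (∀ n, IsOpen (U n) ∧ (U n).Nonempty) →
    ∃ x : ℕ → X, (∀ n, x n ∈ U n) ∧ ∃ p, IsFree p ∧ ∃ a, IsPLimit p x a

/-- Strongly `p`-pseudocompact. -/
def StronglyPPseudocompact (p : Ultrafilter ℕ) (X : Type) [TopologicalSpace X] : Prop :=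
  ∀ U : ℕ → Set X, (∀ n, IsOpen (U n) ∧ (U n).Nonempty) →
    ∃ x : ℕ → X, (∀ n, x n ∈ U n) ∧ ∃ a, IsPLimit p x a

/-- Property (iv): strongly bounded for the set of all free ultrafilters. -/
def StronglyBounded (X : Type) [TopologicalSpace X] : Prop :=
  ∀ U : ℕ → Set X, (∀ n, IsOpen (U n) ∧ (U n).Nonempty) →
    ∃ x : ℕ → X, (∀ n, x n ∈ U n) ∧ ∀ p, IsFree p → ∃ a, IsPLimit p x a

theorem result (G : Type) [AddCommGroup G]
    (h : ∃ t : TopologicalSpace G, @IsTopologicalAddGroup G t _ ∧ @T2Space G t ∧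
      @IsPseudocompact G t) :
    ∃ t : TopologicalSpace G, @IsTopologicalAddGroup G t _ ∧ @T2Space G t ∧
      @SelectivelyPseudocompact G t ∧
      (∃ p, IsFree p ∧ @StronglyPPseudocompact p G t) ∧
      (∀ p, IsFree p → @StronglyPPseudocompact p G t) ∧
      @StronglyBounded G t := by
  obtain ⟨t, h1, h2, h3⟩ := Pool.Agent.H15.Psc.cl1.pseudo h
  have h4 : StronglyBounded G := fun U hU => by
    obtain ⟨C, hC, h⟩ := h3 U hU
    choose x hx using h
    refine ⟨x, fun n => (hx n).2, fun p _ => ?_⟩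
    obtain ⟨a, -, ha⟩ := hC.ultrafilter_le_nhds (p.map x)
      (le_principal_iff.2 (univ_mem' (f := (p : Filter ℕ)) fun n => (hx n).1))
    exact ⟨a, fun V hV => ha hV⟩
  have h5 : ∀ p, IsFree p → StronglyPPseudocompact p G := fun p hp U hU =>
    let ⟨x, a, b⟩ := h4 U hU; ⟨x, a, b p hp⟩
  have h6 : IsFree (hyperfilter ℕ) := fun n => (Set.finite_singleton n).notMem_hyperfilter
  exact ⟨t, h1, h2, fun U hU => let ⟨x, a, b⟩ := h4 U hU; ⟨x, a, _, h6, b _ h6⟩,
    ⟨_, h6, h5 _ h6⟩, h5, h4⟩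

end Pool.Agent.Results.MP_f23337_gt.AllFour
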